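import Pool.Agent.Q271.LiouvilleLine

set_option autoImplicit false

namespace Pool.Agent.Results.MP_6d7a61_nt.AdmissibleIff

open Q271 Matrix MeasureTheory

/-- constant on no non-empty open subset of the domain -/
def NowhereConstant {X Y : Type} [TopologicalSpace X] (g : X → Y) : Prop :=
  ∀ U : Set X, IsOpen U → U.Nonempty → ¬ ∃ c : Y, ∀ x ∈ U, g x = c

/-- the LIC property -/
def LIC {m n : ℕ} (f : Matrix (Fin m) (Fin n) ℝ → Matrix (Fin m) (Fin n) ℝ) : Prop :=
  ¬ ∃ Ω : Set (Matrix (Fin m) (Fin n) ℝ), (interior Ω).Nonempty ∧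
    ∃ (p : Fin m → ℤ) (q : Fin n → ℤ), q ≠ 0 ∧ ∀ B ∈ f '' Ω, B *ᵥ toR q = toR p

/-- strongly nowhere constant maps -/
def StronglyNowhereConstant {m n : ℕ}
    (f : Matrix (Fin m) (Fin n) ℝ → Matrix (Fin m) (Fin n) ℝ) : Prop :=
  ∀ (R₁ : Matrix (Fin m) (Fin m) ℚ) (R₂ : Matrix (Fin n) (Fin n) ℚ) (T : Matrix (Fin m) (Fin n) ℚ),
    IsUnit R₁ → IsUnit R₂ → ∀ i j, NowhereConstant (fun A : Matrix (Fin m) (Fin n) ℝ =>
      (R₁.map (fun r : ℚ => (r : ℝ)) * f A * R₂.map (fun r : ℚ => (r : ℝ)) +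
        T.map (fun r : ℚ => (r : ℝ))) i j)

/-- admissible pairs -/
def Admissible (m n : ℕ) : Prop :=
  ∃ f : Matrix (Fin m) (Fin n) ℝ → Matrix (Fin m) (Fin n) ℝ,
    Continuous f ∧ StronglyNowhereConstant f ∧ LIC f ∧ ∀ A, ¬ IsLiouville (f A)

/-- real numbers indexed by a finite type that are linearly independent over the rationals -/
lemma exists_indep (m n : ℕ) : ∃ C : Fin m → Fin n → ℝ, ∀ a : Fin m → Fin n → ℚ,
    ∑ i, ∑ j, (a i j : ℝ) * C i j = 0 → ∀ i j, a i j = 0 := by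
  classical
  let b := Module.Basis.ofVectorSpace ℚ ℝ
  have hinf : Infinite (Module.Basis.ofVectorSpaceIndex ℚ ℝ) := by
    by_contra h
    rw [not_infinite_iff_finite] at h
    have h1 : Module.rank ℚ ℝ < Cardinal.aleph0 := by
      rw [← b.mk_eq_rank'']
      exact Cardinal.lt_aleph0_of_finite _
    rw [Real.rank_rat_real] at h1
    exact absurd h1 (not_lt.2 Cardinal.aleph0_le_continuum)
  let e : Fin m × Fin n ↪ Module.Basis.ofVectorSpaceIndex ℚ ℝ :=
    (finProdFinEquiv.toEmbedding.trans Fin.valEmbedding).trans (Infinite.natEmbedding _)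
  have hli : LinearIndependent ℚ (fun p : Fin m × Fin n => b (e p)) :=
    b.linearIndependent.comp e e.injective
  refine ⟨fun i j => b (e (i, j)), fun a ha i j => ?_⟩
  have h2 := Fintype.linearIndependent_iff.1 hli (fun p => a p.1 p.2) ?_ (i, j)
  · exact h2
  · rw [Fintype.sum_prod_type]
    simpa [Rat.smul_def] using ha

lemma row_ne_zero {k : ℕ} (R : Matrix (Fin k) (Fin k) ℚ) (hR : IsUnit R) (i : Fin k) :
    ∃ l, R i l ≠ 0 := by
  by_contra h
  push Not at h
  have h1 : R.det = 0 := Matrix.det_eq_zero_of_row_eq_zero i h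
  have h2 := (Matrix.isUnit_iff_isUnit_det R).1 hR
  rw [h1] at h2
  exact not_isUnit_zero h2

lemma col_ne_zero {k : ℕ} (R : Matrix (Fin k) (Fin k) ℚ) (hR : IsUnit R) (j : Fin k) :
    ∃ l, R l j ≠ 0 := by
  by_contra h
  push Not at h
  have h1 : R.det = 0 := Matrix.det_eq_zero_of_column_eq_zero j h
  have h2 := (Matrix.isUnit_iff_isUnit_det R).1 hR
  rw [h1] at h2
  exact not_isUnit_zero h2

/-- an affine function of one entry with non-zero slope is nowhere constant -/
lemma nowhere_affine {m n : ℕ} (i₀ : Fin m) (j₀ : Fin n) (a b : ℝ) (hb : b ≠ 0) :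
    NowhereConstant (fun A : Matrix (Fin m) (Fin n) ℝ => a + A i₀ j₀ * b) := by
  rintro U hU ⟨A, hA⟩ ⟨c, hc⟩
  have hcont : Continuous (fun t : ℝ => A + t • Matrix.single i₀ j₀ (1 : ℝ)) := by fun_prop
  have h0 : (fun t : ℝ => A + t • Matrix.single i₀ j₀ (1 : ℝ)) 0 ∈ U := by simpa using hA
  have hn : (fun t : ℝ => A + t • Matrix.single i₀ j₀ (1 : ℝ)) ⁻¹' U ∈ nhds (0 : ℝ) :=
    (hU.preimage hcont).mem_nhds h0
  obtain ⟨ε, hε, hball⟩ := Metric.mem_nhds_iff.1 hn
  have h1 : (ε / 2) ∈ Metric.ball (0 : ℝ) ε := by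
    rw [Metric.mem_ball, dist_zero_right, Real.norm_eq_abs, abs_of_pos (by positivity)]
    linarith
  have h2 := hc _ (hball h1)
  have h3 := hc _ hA
  simp only [Matrix.add_apply, Matrix.smul_apply, Matrix.single_apply_same, smul_eq_mul,
    mul_one] at h2 h3
  have h4 : ε / 2 * b = 0 := by linarith
  rcases mul_eq_zero.1 h4 with h5 | h5
  · linarith
  · exact hb h5

/-- **Pairs with `m ≥ 2` are admissible.** -/
lemma admissible_of_two_le (m n : ℕ) (hm : 2 ≤ m) (hn : 1 ≤ n) : Admissible m n := by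
  obtain ⟨C, hC⟩ := exists_indep m n
  obtain ⟨A₀, hA₀⟩ := (ae_line m n hm C).exists
  set i₀ : Fin m := ⟨0, by omega⟩
  set j₀ : Fin n := ⟨0, by omega⟩
  refine ⟨fun A => Matrix.of (fun i j => A₀ i j + A i₀ j₀ * C i j), ?_, ?_, ?_, fun A => hA₀ _⟩
  · refine continuous_matrix fun i j => ?_
    simp only [Matrix.of_apply]
    exact continuous_const.add (((continuous_id.matrix_elem i₀ j₀)).mul continuous_const)
  · intro R₁ R₂ T h₁ h₂ i j
    have e : (fun A : Matrix (Fin m) (Fin n) ℝ =>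
        (R₁.map (fun r : ℚ => (r : ℝ)) * (Matrix.of (fun i j => A₀ i j + A i₀ j₀ * C i j)) *
          R₂.map (fun r : ℚ => (r : ℝ)) + T.map (fun r : ℚ => (r : ℝ))) i j) =
        fun A : Matrix (Fin m) (Fin n) ℝ =>
          ((R₁.map (fun r : ℚ => (r : ℝ)) * Matrix.of A₀ * R₂.map (fun r : ℚ => (r : ℝ)) +
            T.map (fun r : ℚ => (r : ℝ))) i j) + A i₀ j₀ *
          (R₁.map (fun r : ℚ => (r : ℝ)) * Matrix.of C * R₂.map (fun r : ℚ => (r : ℝ))) i j := by
      funext A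
      have e1 : (Matrix.of (fun i j => A₀ i j + A i₀ j₀ * C i j)) =
          Matrix.of A₀ + A i₀ j₀ • Matrix.of C := by
        ext i j
        simp
      rw [e1, Matrix.mul_add, Matrix.add_mul, Matrix.mul_smul, Matrix.smul_mul]
      simp only [Matrix.add_apply, Matrix.smul_apply, smul_eq_mul]
      ring
    rw [e]
    apply nowhere_affine
    intro h0
    obtain ⟨k, hk⟩ := row_ne_zero R₁ h₁ i
    obtain ⟨l, hl⟩ := col_ne_zero R₂ h₂ j
    have h3 := hC (fun k l => R₁ i k * R₂ l j) ?_ k l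
    · rcases mul_eq_zero.1 h3 with h4 | h4
      · exact hk h4
      · exact hl h4
    · rw [Matrix.mul_apply] at h0
      simp only [Matrix.mul_apply, Matrix.map_apply, Matrix.of_apply, Finset.sum_mul] at h0
      rw [Finset.sum_comm] at h0
      rw [← h0]
      refine Finset.sum_congr rfl fun k _ => Finset.sum_congr rfl fun l _ => ?_
      push_cast
      ring
  · rintro ⟨Ω, ⟨A, hA⟩, p, q, hq, hB⟩
    -- the first row
    have hrow : NowhereConstant (fun A : Matrix (Fin m) (Fin n) ℝ =>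
        (∑ j, A₀ i₀ j * (q j : ℝ)) + A i₀ j₀ * ∑ j, C i₀ j * (q j : ℝ)) := by
      apply nowhere_affine
      intro h0
      apply hq
      funext j
      have h3 := hC (fun k l => if k = i₀ then (q l : ℚ) else 0) ?_ i₀ j
      · simpa using h3
      · rw [Finset.sum_eq_single i₀]
        · rw [← h0]
          refine Finset.sum_congr rfl fun l _ => ?_
          simp
          ring
        · intro b _ hb
          simp [hb]
        · simp
    apply hrow (interior Ω) isOpen_interior ⟨A, hA⟩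
    refine ⟨p i₀, fun x hx => ?_⟩
    have h1 := hB _ ⟨x, interior_subset hx, rfl⟩
    have h2 := congrFun h1 i₀
    simp only [Matrix.mulVec, dotProduct, Matrix.of_apply, toR] at h2
    show ∑ j, A₀ i₀ j * (q j : ℝ) + x i₀ j₀ * ∑ j, C i₀ j * (q j : ℝ) = (p i₀ : ℝ)
    rw [← h2, Finset.mul_sum, ← Finset.sum_add_distrib]
    exact Finset.sum_congr rfl fun j _ => by ring

/-- a nowhere constant continuous function takes a rational value on every open set -/
lemma exists_rat_value (n : ℕ) (g : (Fin 1 → Fin n → ℝ) → ℝ) (hg : Continuous g)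
    (U : Set (Fin 1 → Fin n → ℝ)) (hU : IsOpen U) (hUne : U.Nonempty)
    (hnc : ∀ V : Set (Fin 1 → Fin n → ℝ), IsOpen V → V.Nonempty → ¬ ∃ c, ∀ x ∈ V, g x = c) :
    ∃ B ∈ U, ∃ (q : ℕ) (p : ℤ), 2 ≤ q ∧ g B * q = p := by
  obtain ⟨A, hA⟩ := hUne
  obtain ⟨ε, hε, hball⟩ := Metric.isOpen_iff.1 hU A hA
  have hconn : IsPreconnected (Metric.ball A ε) := (convex_ball _ _).isPreconnected
  have himg : IsPreconnected (g '' Metric.ball A ε) := hconn.image g hg.continuousOn
  have hnc' : ∃ B ∈ Metric.ball A ε, g B ≠ g A := by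
    by_contra h
    push Not at h
    exact hnc _ Metric.isOpen_ball ⟨A, Metric.mem_ball_self hε⟩ ⟨g A, h⟩
  obtain ⟨B, hB, hBA⟩ := hnc'
  have hgA : g A ∈ g '' Metric.ball A ε := ⟨A, Metric.mem_ball_self hε, rfl⟩
  have hgB : g B ∈ g '' Metric.ball A ε := ⟨B, hB, rfl⟩
  have huIcc : Set.uIcc (g A) (g B) ⊆ g '' Metric.ball A ε :=
    himg.ordConnected.uIcc_subset hgA hgB
  obtain ⟨s, hs1, hs2⟩ := exists_rat_btwn (show min (g A) (g B) < max (g A) (g B) from by
    rw [min_lt_max]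
    exact hBA.symm)
  obtain ⟨B', hB', hB's⟩ := huIcc (show (s : ℝ) ∈ Set.uIcc (g A) (g B) from by
    rw [Set.uIcc, Set.mem_Icc]
    exact ⟨hs1.le, hs2.le⟩)
  refine ⟨B', hball hB', 2 * s.den, 2 * s.num, ?_, ?_⟩
  · have := s.den_pos
    omega
  · have h1 : (s : ℝ) * s.den = s.num := by
      exact_mod_cast s.mul_den_eq_num
    rw [hB's]
    push_cast
    linear_combination 2 * h1

/-- **Pairs `(1, n)` are not admissible.** -/
lemma not_admissible_one (n : ℕ) (hn : 1 ≤ n) : ¬ Admissible 1 n := by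
  rintro ⟨f, hf, hs, hl, hL⟩
  set j₀ : Fin n := ⟨0, by omega⟩
  have : BaireSpace (Matrix (Fin 1) (Fin n) ℝ) :=
    inferInstanceAs (BaireSpace (Fin 1 → Fin n → ℝ))
  have hmul : ∀ y : Fin n → ℤ, Continuous (fun A : Matrix (Fin 1) (Fin n) ℝ => f A *ᵥ toR y) :=
    fun y => hf.matrix_mulVec continuous_const
  -- no exact relation
  let G₁ : (Fin n → ℤ) × (Fin 1 → ℤ) → Set (Matrix (Fin 1) (Fin n) ℝ) :=
    fun s => {A | (s.1 ≠ 0 ∨ s.2 ≠ 0) → f A *ᵥ toR s.1 ≠ toR s.2}
  have hG₁o : ∀ s, IsOpen (G₁ s) := by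
    intro s
    by_cases h : s.1 ≠ 0 ∨ s.2 ≠ 0
    · have : G₁ s = {A | f A *ᵥ toR s.1 ≠ toR s.2} := by
        ext A
        simp only [G₁, Set.mem_ofPred_eq]
        exact ⟨fun h1 => h1 h, fun h1 _ => h1⟩
      rw [this]
      exact isOpen_ne_fun (hmul s.1) continuous_const
    · have : G₁ s = Set.univ := by
        ext A
        simp only [G₁, Set.mem_ofPred_eq, Set.mem_univ, iff_true]
        exact fun h1 => absurd h1 h
      rw [this]
      exact isOpen_univ
  have hG₁d : ∀ s, Dense (G₁ s) := by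
    rintro ⟨y, x⟩
    rw [dense_iff_inter_open]
    intro U hU hUne
    by_contra hcon
    rw [Set.not_nonempty_iff_eq_empty] at hcon
    have hall : ∀ A ∈ U, (y ≠ 0 ∨ x ≠ 0) ∧ f A *ᵥ toR y = toR x := by
      intro A hA
      by_contra h
      have : A ∈ U ∩ G₁ (y, x) := by
        refine ⟨hA, fun h1 h2 => h ⟨h1, h2⟩⟩
      rw [hcon] at this
      exact this
    by_cases hy : y = 0
    · obtain ⟨A, hA⟩ := hUne
      obtain ⟨h1, h2⟩ := hall A hA
      subst hy
      rcases h1 with h1 | h1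
      · exact h1 rfl
      · apply h1
        have e : toR (0 : Fin n → ℤ) = 0 := by
          ext i
          simp [toR]
        rw [e, Matrix.mulVec_zero] at h2
        funext i
        have := congrFun h2 i
        simp only [toR, Pi.zero_apply] at this
        exact_mod_cast this.symm
    · apply hl
      refine ⟨U, ?_, x, y, hy, ?_⟩
      · rwa [hU.interior_eq]
      · rintro _ ⟨A, hA, rfl⟩
        exact (hall A hA).2
  -- good approximations
  let G₂ : ℕ → Set (Matrix (Fin 1) (Fin n) ℝ) :=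
    fun N => {A | ∃ (y : Fin n → ℤ) (x : Fin 1 → ℤ), 2 ≤ ‖toR y‖ ∧
      ‖f A *ᵥ toR y - toR x‖ < (‖toR y‖ ^ N)⁻¹}
  have hG₂o : ∀ N, IsOpen (G₂ N) := by
    intro N
    have : G₂ N = ⋃ (y : Fin n → ℤ), ⋃ (x : Fin 1 → ℤ), ⋃ (_ : 2 ≤ ‖toR y‖),
        {A | ‖f A *ᵥ toR y - toR x‖ < (‖toR y‖ ^ N)⁻¹} := by
      ext A
      simp only [G₂, Set.mem_ofPred_eq, Set.mem_iUnion, exists_prop]
    rw [this]
    refine isOpen_iUnion fun y => isOpen_iUnion fun x => isOpen_iUnion fun _ => ?_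
    exact isOpen_lt (((hmul y).sub continuous_const).norm) continuous_const
  have hG₂d : ∀ N, Dense (G₂ N) := by
    intro N
    rw [dense_iff_inter_open]
    intro U hU hUne
    obtain ⟨B', hB', q, p, hq, hrq⟩ := exists_rat_value n (fun B => f (Matrix.of B) 0 j₀)
      (hf.matrix_elem 0 j₀) U hU hUne (fun V hV hVne => by
        have hnc := hs 1 1 0 isUnit_one isUnit_one 0 j₀ V hV hVne
        rintro ⟨c, hc⟩
        apply hnc
        refine ⟨c, fun B hB => ?_⟩
        have e1 : (1 : Matrix (Fin 1) (Fin 1) ℚ).map (fun r : ℚ => (r : ℝ)) = 1 :=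
          Matrix.map_one _ (by simp) (by simp)
        have e2 : (1 : Matrix (Fin n) (Fin n) ℚ).map (fun r : ℚ => (r : ℝ)) = 1 :=
          Matrix.map_one _ (by simp) (by simp)
        have e3 : (0 : Matrix (Fin 1) (Fin n) ℚ).map (fun r : ℚ => (r : ℝ)) = 0 :=
          Matrix.map_zero _ (by simp)
        rw [e1, e2, e3]
        show (1 * f B * 1 + 0 : Matrix (Fin 1) (Fin n) ℝ) 0 j₀ = c
        rw [Matrix.one_mul, Matrix.mul_one, add_zero]
        exact hc B hB)
    refine ⟨B', hB', fun j => if j = j₀ then (q : ℤ) else 0, fun _ => p, ?_, ?_⟩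
    · have h1 := norm_toR_le (fun j => if j = j₀ then (q : ℤ) else 0) j₀
      simp only [if_true] at h1
      have h2 : (2 : ℝ) ≤ q := by exact_mod_cast hq
      have h3 : |((q : ℤ) : ℝ)| = q := by simp
      rw [h3] at h1
      exact h2.trans h1
    · have hz : f B' *ᵥ toR (fun j => if j = j₀ then (q : ℤ) else 0) - toR (fun _ => p) = 0 := by
        funext i
        rw [Subsingleton.elim i 0]
        simp only [Matrix.mulVec, dotProduct, toR, Pi.sub_apply, Pi.zero_apply]
        rw [Finset.sum_eq_single j₀]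
        · rw [if_pos rfl, sub_eq_zero, ← hrq]
          rfl
        · intro b _ hb
          rw [if_neg hb]
          simp
        · simp
      rw [hz, norm_zero]
      have h1 := norm_toR_le (fun j => if j = j₀ then (q : ℤ) else 0) j₀
      simp only [if_true] at h1
      have h2 : (2 : ℝ) ≤ q := by exact_mod_cast hq
      have h3 : |((q : ℤ) : ℝ)| = q := by simp
      rw [h3] at h1
      have h4 : 0 < ‖toR (fun j => if j = j₀ then (q : ℤ) else 0)‖ := by linarith
      positivity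
  have hd1 : Dense (⋂ s, G₁ s) := dense_iInter_of_isOpen hG₁o hG₁d
  have hd2 : Dense (⋂ N, G₂ N) := dense_iInter_of_isOpen hG₂o hG₂d
  have hg1 : IsGδ (⋂ s, G₁ s) := IsGδ.iInter_of_isOpen hG₁o
  have hg2 : IsGδ (⋂ N, G₂ N) := IsGδ.iInter_of_isOpen hG₂o
  obtain ⟨A, hA⟩ := (hd1.inter_of_Gδ hg1 hg2 hd2).nonempty
  apply hL A
  refine ⟨fun y x hyx => ?_, fun N => ?_⟩
  · exact (Set.mem_iInter.1 hA.1 (y, x)) hyx
  · exact Set.mem_iInter.1 hA.2 N

/-- The admissible pairs `(m, n)` of positive integers are exactly those with `m ≥ 2`. -/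
theorem result (m n : ℕ) (hm : 1 ≤ m) (hn : 1 ≤ n) : Admissible m n ↔ 2 ≤ m := by
  refine ⟨fun h => ?_, fun h => admissible_of_two_le m n h hn⟩
  by_contra h2
  have : m = 1 := by omega
  subst this
  exact not_admissible_one n hn h

end Pool.Agent.Results.MP_6d7a61_nt.AdmissibleIff
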